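import Pool.Agent.K7.H10.CE.Deg

/-!
# The critical exponent
-/

set_option autoImplicit false
set_option linter.unusedSectionVars false

namespace Pool.Agent.K7.H10.CE

open scoped TensorProduct Topology
open Pool.Agent.H826R3.SM Pool.Agent.TH671.DU Pool.Agent.N86.SQ Pool.Agent.K7.H10.GR
open MvPolynomial Filter

/-- The exponent `log (rate Γ) / log (deg Γ)` of a finite scheme `Γ = Spec A`. -/
noncomputable def expo (k A : Type) [Field k] [CommRing A] [Algebra k A] : ℝ :=
  Real.log (rate k A) / Real.log (Module.finrank k A)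

/-- The critical exponent: the supremum of the exponents of all finite schemes of degree at least
`2` over `k`. -/
noncomputable def crit (k : Type) [Field k] : EReal :=
  sSup {y | ∃ (A : Type) (_ : CommRing A) (_ : Algebra k A), Module.Finite k A ∧
    2 ≤ Module.finrank k A ∧ y = (expo k A : EReal)}

/-- The supremum of the growth rates of the local schemes of degree `d` over `k`. -/
noncomputable def maxRate (k : Type) [Field k] (d : ℕ) : ℝ := sSup (growthRates k d)

/-- The ratio `δ(Γ^n) / (deg Γ)^((1+ε)n)` of Q1. -/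
noncomputable def ratio (k A : Type) [Field k] [CommRing A] [Algebra k A] (ε : ℝ) (n : ℕ) : ℝ :=
  (defect k (Pow k A n) : ℝ) / (Module.finrank k A : ℝ) ^ ((1 + ε) * (n : ℝ))

section

variable {k : Type} [Field k] [IsAlgClosed k]

section scheme

variable {A : Type} [CommRing A] [Algebra k A] [Module.Finite k A] [Nontrivial A]

theorem expo_le_iff (h : 2 ≤ Module.finrank k A) (x : ℝ) :
    expo k A ≤ x ↔ rate k A ≤ (Module.finrank k A : ℝ) ^ x := by
  have h1 : (1 : ℝ) < Module.finrank k A := by exact_mod_cast h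
  have h2 : 0 < Real.log (Module.finrank k A) := Real.log_pos h1
  have h3 := one_le_rate (k := k) A
  unfold expo
  rw [div_le_iff₀ h2, Real.rpow_def_of_pos (by linarith), mul_comm x, Real.log_le_iff_le_exp
    (by linarith)]

theorem one_le_expo (h : 2 ≤ Module.finrank k A) : 1 ≤ expo k A := by
  by_contra hlt
  push Not at hlt
  obtain ⟨x, hx1, hx2⟩ := exists_between hlt
  have h1 := (expo_le_iff h x).1 hx1.le
  have h2 := finrank_le_rate (k := k) A
  have h3 : (1 : ℝ) < Module.finrank k A := by exact_mod_cast h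
  have h4 : (Module.finrank k A : ℝ) ^ x < (Module.finrank k A : ℝ) ^ (1 : ℝ) :=
    Real.rpow_lt_rpow_of_exponent_lt h3 hx2
  rw [Real.rpow_one] at h4
  linarith

theorem lim_zero {ε : ℝ} (hε : rate k A < (Module.finrank k A : ℝ) ^ (1 + ε)) :
    Tendsto (ratio k A ε) atTop (𝓝 0) := by
  have hr := one_le_rate (k := k) A
  set y : ℝ := (Module.finrank k A : ℝ) ^ (1 + ε) with hy
  obtain ⟨z, hz1, hz2⟩ := exists_between hε
  obtain ⟨C, hC⟩ := rate_upper (k := k) A (z - rate k A) (by linarith)
  have hlim : Tendsto (fun n : ℕ => C * (z / y) ^ n) atTop (𝓝 0) := by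
    have := (tendsto_pow_atTop_nhds_zero_of_lt_one (r := z / y) (by
      have : 0 < y := by linarith
      have : 0 < z := by linarith
      positivity) ((div_lt_one (by linarith)).2 hz2)).const_mul C
    rwa [mul_zero] at this
  have hden : ∀ n : ℕ, (Module.finrank k A : ℝ) ^ ((1 + ε) * (n : ℝ)) = y ^ n := fun n => by
    rw [hy, Real.rpow_mul (Nat.cast_nonneg _), Real.rpow_natCast]
  refine squeeze_zero (fun n => by unfold ratio; positivity) (fun n => ?_) hlim
  have h1 := hC n
  have h2 : rate k A + (z - rate k A) = z := by ring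
  rw [h2] at h1
  unfold ratio
  rw [hden, div_pow, ← mul_div_assoc]
  have h3 : (0 : ℝ) ≤ (Module.finrank k A : ℝ) ^ n := by positivity
  have hy0 : 0 < y := by linarith
  exact div_le_div_of_nonneg_right (by linarith) (by positivity)

theorem lim_top {ε : ℝ} (hε0 : 0 ≤ ε) (hε : (Module.finrank k A : ℝ) ^ (1 + ε) < rate k A) :
    Tendsto (ratio k A ε) atTop atTop := by
  set d : ℝ := (Module.finrank k A : ℝ) with hd
  have hd1 : 1 ≤ d := by
    rw [hd]
    exact_mod_cast (Module.finrank_pos : 0 < Module.finrank k A)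
  set y : ℝ := d ^ (1 + ε) with hy
  have hdy : d ≤ y := by
    conv_lhs => rw [← Real.rpow_one d]
    exact Real.rpow_le_rpow_of_exponent_le hd1 (by linarith)
  have hy0 : 0 < y := by linarith
  have hq : 1 < rate k A / y := (one_lt_div hy0).2 hε
  have hden : ∀ n : ℕ, (Module.finrank k A : ℝ) ^ ((1 + ε) * (n : ℝ)) = y ^ n := fun n => by
    rw [hy, hd, Real.rpow_mul (Nat.cast_nonneg _), Real.rpow_natCast]
  have hlim : Tendsto (fun n : ℕ => (rate k A / y) ^ n + (-1)) atTop atTop :=
    tendsto_atTop_add_const_right _ _ (tendsto_pow_atTop_atTop_of_one_lt hq)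
  refine tendsto_atTop_mono (fun n => ?_) hlim
  have h1 := rate_lower (k := k) A n
  rw [← hd] at h1
  unfold ratio
  rw [hden, le_div_iff₀ (by positivity), add_mul, div_pow, div_mul_cancel₀ _ (by positivity)]
  have h2 : d ^ n ≤ y ^ n := pow_le_pow_left₀ (by linarith) hdy n
  linarith

end scheme

theorem one_le_crit : 1 ≤ crit k := by
  have h : Module.finrank k (k × k) = 2 := by
    rw [Module.finrank_prod, Module.finrank_self]
  have h1 : (expo k (k × k) : EReal) ≤ crit k :=
    le_sSup ⟨k × k, inferInstance, inferInstance, inferInstance, h.ge, rfl⟩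
  refine le_trans ?_ h1
  exact_mod_cast one_le_expo (k := k) (A := k × k) h.ge

theorem crit_le_iff {x : ℝ} (hx : 1 ≤ x) : crit k ≤ x ↔ ∀ d : ℕ, RateLe k d ((d : ℝ) ^ x) := by
  constructor
  · intro h d A _ _ _ _ hd
    have hpos : 0 < Module.finrank k A := Module.finrank_pos
    rcases Nat.lt_or_ge 1 d with hd2 | hd1
    swap
    · have h2 : d = 1 := by omega
      rw [h2, Nat.cast_one, Real.one_rpow]
      exact rate_one (by omega)
    have h2 : 2 ≤ Module.finrank k A := by omega
    have h3 : (expo k A : EReal) ≤ x :=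
      (le_sSup ⟨A, inferInstance, inferInstance, inferInstance, h2, rfl⟩ :
        (expo k A : EReal) ≤ crit k).trans h
    have h4 : expo k A ≤ x := by exact_mod_cast h3
    rw [← hd]
    exact (expo_le_iff h2 x).1 h4
  · intro h
    refine sSup_le ?_
    rintro y ⟨A, _, _, _, h2, rfl⟩
    have hnt : Nontrivial A := Module.nontrivial_of_finrank_pos (R := k) (by omega)
    have h3 := all_of_local hx h _ A rfl
    exact_mod_cast (expo_le_iff h2 x).2 h3

theorem le_of_real {a b : EReal} (hb : 1 ≤ b) (h : ∀ x : ℝ, 1 ≤ x → b ≤ x → a ≤ x) : a ≤ b := by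
  induction b using EReal.rec with
  | bot => exact absurd hb (not_le.2 (EReal.bot_lt_coe 1))
  | coe x => exact h x (by exact_mod_cast hb) le_rfl
  | top => exact le_top

theorem crit_char (p : ℕ) (K : Type) [Field K] [IsAlgClosed K] [CharP k p] [CharP K p] :
    crit k = crit K := by
  refine le_antisymm (le_of_real one_le_crit fun x hx h => ?_)
    (le_of_real one_le_crit fun x hx h => ?_)
  · rw [crit_le_iff hx] at h ⊢
    exact fun d => (char_transfer p K k).1 d _ (h d)
  · rw [crit_le_iff hx] at h ⊢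
    exact fun d => (char_transfer p k K).1 d _ (h d)

theorem qAll_iff_crit : QAll k ↔ crit k = 1 := by
  have h1 : crit k = 1 ↔ crit k ≤ (1 : ℝ) := by
    constructor
    · intro h
      rw [h]
      exact_mod_cast le_rfl
    · intro h
      exact le_antisymm (by exact_mod_cast h) one_le_crit
  rw [h1, crit_le_iff le_rfl, qAll_iff]
  simp only [Real.rpow_one]

/-- the largest growth rate -/
theorem maxRate_spec {d : ℕ} (hd : 1 ≤ d) (x : ℝ) : RateLe k d x ↔ maxRate k d ≤ x := by
  obtain ⟨l, rfl⟩ : ∃ l, d = l + 1 := ⟨d - 1, by omega⟩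
  have hbdd : BddAbove (growthRates k (l + 1)) := by
    refine ⟨bd l, ?_⟩
    rintro y ⟨A, _, _, _, _, h, rfl⟩
    obtain ⟨c, hc⟩ := exists_ad (k := k) (A := A) l h
    have h3 := rate_pow_le (k := k) A 1
    rw [pow_one] at h3
    exact h3.trans (by exact_mod_cast mdeg_one_le hc)
  constructor
  · intro h
    refine csSup_le ?_ ?_
    · obtain ⟨A, _, _, c, hc⟩ := exists_local k l
      exact ⟨_, A, inferInstance, inferInstance, Module.Finite.of_basis c, hc.isLocal,
        by rw [Module.finrank_eq_card_basis c, Fintype.card_fin], rfl⟩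
    · rintro y ⟨A, _, _, _, _, h1, rfl⟩
      exact h A h1
  · intro h A _ _ _ _ h1
    exact (le_csSup hbdd ⟨A, inferInstance, inferInstance, inferInstance, inferInstance, h1,
      rfl⟩).trans h

theorem le_maxRate {d : ℕ} (hd : 1 ≤ d) : (d : ℝ) ≤ maxRate k d := by
  obtain ⟨l, rfl⟩ : ∃ l, d = l + 1 := ⟨d - 1, by omega⟩
  obtain ⟨A, _, _, c, hc⟩ := exists_local k l
  have h1 : Module.Finite k A := Module.Finite.of_basis c
  have h2 : IsLocalRing A := hc.isLocal
  have h3 : Module.finrank k A = l + 1 := by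
    rw [Module.finrank_eq_card_basis c, Fintype.card_fin]
  have h4 := (maxRate_spec (k := k) hd (maxRate k (l + 1))).2 le_rfl A h3
  refine le_trans ?_ h4
  rw [← h3]
  exact finrank_le_rate A

theorem maxExpo_le_iff {d : ℕ} (hd : 2 ≤ d) (x : ℝ) :
    Real.log (maxRate k d) / Real.log d ≤ x ↔ maxRate k d ≤ (d : ℝ) ^ x := by
  have h1 : (1 : ℝ) < d := by exact_mod_cast hd
  have h2 : 0 < Real.log d := Real.log_pos h1
  have h3 := le_maxRate (k := k) (d := d) (by omega)
  rw [div_le_iff₀ h2, Real.rpow_def_of_pos (by linarith), mul_comm x, Real.log_le_iff_le_exp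
    (by linarith)]

/-- above the critical exponent the bound fails in all large degrees -/
theorem eventually_gt {x : ℝ} (hx : 1 ≤ x) (h : (x : EReal) < crit k) :
    ∀ᶠ d : ℕ in atTop, (d : ℝ) ^ x < maxRate k d := by
  have h1 : ¬ ∃ᶠ D : ℕ in atTop, RateLe k D ((D : ℝ) ^ x) := by
    intro h2
    have h3 := inf_deg (k := k) (by linarith) h2
    exact absurd ((crit_le_iff hx).2 h3) (not_le.2 h)
  rw [not_frequently] at h1
  filter_upwards [h1, eventually_ge_atTop 1] with d hd hd1
  rw [maxRate_spec hd1] at hd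
  exact not_le.1 hd

theorem tendsto_crit : Tendsto (fun d : ℕ => ((Real.log (maxRate k d) / Real.log d : ℝ) : EReal))
    atTop (𝓝 (crit k)) := by
  refine tendsto_order.2 ⟨fun a ha => ?_, fun a ha => ?_⟩
  · obtain ⟨y, hy1, hy2⟩ := EReal.lt_iff_exists_real_btwn.1 ha
    have key : ∀ z : ℝ, 1 ≤ z → (z : EReal) < crit k →
        ∀ᶠ d : ℕ in atTop, (z : EReal) < ((Real.log (maxRate k d) / Real.log d : ℝ) : EReal) := by
      intro z hz1 hz2
      filter_upwards [eventually_gt hz1 hz2, eventually_ge_atTop 2] with d hd hd2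
      rw [EReal.coe_lt_coe_iff]
      by_contra hle
      push Not at hle
      have := (maxExpo_le_iff hd2 z).1 hle
      linarith
    rcases le_or_gt 1 y with h1 | h1
    · filter_upwards [key y h1 hy2] with d hd
      exact hy1.trans hd
    · filter_upwards [eventually_ge_atTop 2] with d hd2
      refine hy1.trans ?_
      rw [EReal.coe_lt_coe_iff]
      by_contra hle
      push Not at hle
      have h2 := (maxExpo_le_iff (k := k) hd2 y).1 hle
      have h3 := le_maxRate (k := k) (d := d) (by omega)
      have h4 : (1 : ℝ) < d := by exact_mod_cast hd2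
      have h5 : (d : ℝ) ^ y < (d : ℝ) ^ (1 : ℝ) := Real.rpow_lt_rpow_of_exponent_lt h4 h1
      rw [Real.rpow_one] at h5
      linarith
  · filter_upwards [eventually_ge_atTop 2] with d hd2
    refine lt_of_le_of_lt (le_of_real one_le_crit fun x hx h => ?_) ha
    rw [crit_le_iff hx] at h
    have h1 := (maxRate_spec (k := k) (d := d) (by omega) _).1 (h d)
    exact_mod_cast (maxExpo_le_iff hd2 x).2 h1

/-- below: the limit statement holds -/
theorem above {ε : ℝ} (h : crit k < ((1 + ε : ℝ) : EReal)) (A : Type) [CommRing A] [Algebra k A]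
    [Module.Finite k A] [Nontrivial A] : Tendsto (ratio k A ε) atTop (𝓝 0) := by
  obtain ⟨x, hx1, hx2⟩ := EReal.lt_iff_exists_real_btwn.1 h
  have hx2' : x < 1 + ε := by exact_mod_cast hx2
  have hx0 : 1 ≤ x := by
    have h1 : (1 : EReal) ≤ x := one_le_crit.trans hx1.le
    exact_mod_cast h1
  rcases Nat.lt_or_ge 1 (Module.finrank k A) with hd2 | hd1
  · have h1 := all_of_local hx0 ((crit_le_iff hx0).1 hx1.le) _ A rfl
    refine lim_zero (lt_of_le_of_lt h1 ?_)
    exact Real.rpow_lt_rpow_of_exponent_lt (by exact_mod_cast hd2) hx2'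
  · have hpos : 0 < Module.finrank k A := Module.finrank_pos
    have h1 : Module.finrank k A = 1 := by omega
    have h2 : QOne k A := by
      rw [qOne_iff_rate]
      refine le_antisymm ?_ (finrank_le_rate A)
      rw [h1, Nat.cast_one]
      exact rate_one h1
    exact h2 ε (by linarith)

/-- below the critical exponent the ratio tends to infinity for some local scheme of each large
degree -/
theorem below {ε : ℝ} (hε : 0 ≤ ε) (h : ((1 + ε : ℝ) : EReal) < crit k) :
    ∀ᶠ d : ℕ in atTop, ∃ (A : Type) (_ : CommRing A) (_ : Algebra k A), Module.Finite k A ∧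
      IsLocalRing A ∧ Module.finrank k A = d ∧ Tendsto (ratio k A ε) atTop atTop := by
  filter_upwards [eventually_gt (by linarith) h, eventually_ge_atTop 1] with d hd hd1
  have h1 : ¬ RateLe k d ((d : ℝ) ^ (1 + ε)) := by
    rw [maxRate_spec hd1]
    exact not_le.2 hd
  unfold RateLe at h1
  push Not at h1
  obtain ⟨A, i1, i2, i3, i4, h2, h3⟩ := h1
  refine ⟨A, i1, i2, i3, i4, h2, lim_top hε ?_⟩
  rw [h2]
  exact h3

/-- it is enough to consider infinitely many degrees -/
theorem infinitely_many (h : ∀ ε : ℝ, 0 < ε → ∃ᶠ d : ℕ in atTop, ∀ (A : Type) [CommRing A]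
    [Algebra k A] [Module.Finite k A] [IsLocalRing A], Module.finrank k A = d →
      ¬ Tendsto (ratio k A ε) atTop atTop) : crit k = 1 := by
  refine le_antisymm (le_of_real le_rfl fun x hx _ => ?_) one_le_crit
  refine EReal.le_of_forall_lt_iff_le.1 fun y hy => ?_
  by_contra hlt
  push Not at hlt
  have hy1 : 1 < y := by
    have : x < y := by exact_mod_cast hy
    linarith
  obtain ⟨z, hz1, hz2⟩ := EReal.lt_iff_exists_real_btwn.1 hlt
  have h1 := below (k := k) (ε := y - 1) (by linarith) (by
    have : (1 + (y - 1) : ℝ) = y := by ring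
    rw [this]
    exact hlt)
  obtain ⟨d, hd1, A, i1, i2, i3, i4, h2, h3⟩ := ((h (y - 1) (by linarith)).and_eventually h1).exists
  exact hd1 A h2 h3

end

end Pool.Agent.K7.H10.CE
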