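import Pool.Agent.K7.H10.CE.Forms

/-!
# Growth rates in infinitely many degrees
-/

set_option autoImplicit false
set_option linter.unusedSectionVars false

namespace Pool.Agent.K7.H10.CE

open scoped TensorProduct Topology
open Pool.Agent.H826R3.SM Pool.Agent.TH671.DU Pool.Agent.N86.SQ Pool.Agent.K7.H10.GR
open MvPolynomial Filter

theorem dual_sq {k : Type} [Field k] (w : DualNumber k) :
    (w - algebraMap k (DualNumber k) (TrivSqZeroExt.fst w)) ^ 2 = 0 := by
  have h : w - algebraMap k (DualNumber k) (TrivSqZeroExt.fst w) =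
      TrivSqZeroExt.inr (TrivSqZeroExt.snd w) := by
    rw [TrivSqZeroExt.algebraMap_eq_inl]
    apply TrivSqZeroExt.ext
    · rw [TrivSqZeroExt.fst_sub, TrivSqZeroExt.fst_inl, TrivSqZeroExt.fst_inr, sub_self]
    · rw [TrivSqZeroExt.snd_sub, TrivSqZeroExt.snd_inl, TrivSqZeroExt.snd_inr, sub_zero]
  rw [h, sq, TrivSqZeroExt.inr_mul_inr]

section

variable {k : Type} [Field k] [IsAlgClosed k]

theorem exists_aug (A : Type) [CommRing A] [Algebra k A] [Module.Finite k A] [IsLocalRing A] :
    ∃ aug : A →ₐ[k] k, ∀ x, aug x = 0 → IsNilpotent x := by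
  have hart : IsArtinianRing A := IsArtinianRing.of_finite k A
  set M : Ideal A := IsLocalRing.maximalIdeal A with hM
  have hMmax : M.IsMaximal := IsLocalRing.maximalIdeal.isMaximal A
  let _ : Field (A ⧸ M) := Ideal.Quotient.field M
  have hbij : Function.Bijective (algebraMap k (A ⧸ M)) :=
    IsAlgClosed.algebraMap_bijective_of_isIntegral
  let ee : k ≃ₐ[k] (A ⧸ M) := AlgEquiv.ofBijective (Algebra.ofId k (A ⧸ M)) hbij
  let aug : A →ₐ[k] k := ee.symm.toAlgHom.comp (Ideal.Quotient.mkₐ k M)
  refine ⟨aug, fun x hx => ?_⟩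
  have h1 : ee.symm (Ideal.Quotient.mk M x) = 0 := hx
  rw [map_eq_zero_iff _ ee.symm.injective] at h1
  have h2 : x ∈ M := Ideal.Quotient.eq_zero_iff_mem.mp h1
  obtain ⟨e, he⟩ : IsNilpotent M := by
    have h1 := IsArtinianRing.isNilpotent_jacobson_bot (R := A)
    rwa [IsLocalRing.jacobson_eq_maximalIdeal ⊥ bot_ne_top] at h1
  refine ⟨e, ?_⟩
  have h3 := Ideal.pow_mem_pow h2 e
  rw [he] at h3
  exact h3

theorem rateLe_succ {d : ℕ} {x : ℝ} (h : RateLe k (d + 1) x) : RateLe k d x := by
  intro A _ _ _ _ hd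
  obtain ⟨aug, haug⟩ := exists_aug (k := k) A
  let D : Type := DualNumber k
  let f1 : A × D →ₐ[k] k := aug.comp (AlgHom.fst k A D)
  let f2 : A × D →ₐ[k] k := (TrivSqZeroExt.fstHom k k k).comp (AlgHom.snd k A D)
  let E : Subalgebra k (A × D) := AlgHom.equalizer f1 f2
  have hD2 : Module.finrank k D = 2 := by
    change Module.finrank k (k × k) = 2
    rw [Module.finrank_prod, Module.finrank_self]
  have hDf : Module.Finite k D := Module.finite_of_finrank_pos (by rw [hD2]; exact two_pos)
  have hnt : Nontrivial E := ⟨⟨1, 0, fun h => zero_ne_one (α := A)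
    (congrArg (fun z : E => (z : A × D).1) h).symm⟩⟩
  have hloc : IsLocalRing E := by
    refine local_of_decomp (k := k) fun z => ⟨aug (z : A × D).1, ?_⟩
    have hz : aug (z : A × D).1 = (z : A × D).2.fst := z.2
    obtain ⟨n, hn⟩ := haug ((z : A × D).1 - algebraMap k A (aug (z : A × D).1)) (by
      rw [map_sub, AlgHom.commutes]
      exact sub_self _)
    refine ⟨n + 2, Subtype.ext (Prod.ext ?_ ?_)⟩
    · change ((z : A × D).1 - algebraMap k A (aug (z : A × D).1)) ^ (n + 2) = 0
      rw [pow_add, hn, zero_mul]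
    · change ((z : A × D).2 - algebraMap k D (aug (z : A × D).1)) ^ (n + 2) = 0
      have h2 : ((z : A × D).2 - algebraMap k D (aug (z : A × D).1)) ^ 2 = 0 := by
        rw [hz]
        exact dual_sq (z : A × D).2
      rw [pow_add, h2, mul_zero]
  have hrk : Module.finrank k E = d + 1 := by
    let φ : (A × D) →ₗ[k] k := f1.toLinearMap - f2.toLinearMap
    have hφ : Function.Surjective φ := by
      intro r
      refine ⟨(algebraMap k A r, 0), ?_⟩
      change aug (algebraMap k A r) - TrivSqZeroExt.fst (0 : D) = r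
      rw [AlgHom.commutes]
      exact sub_zero _
    have hker : LinearMap.ker φ = Subalgebra.toSubmodule E := by
      ext z
      rw [LinearMap.mem_ker]
      exact sub_eq_zero
    have h1 := LinearMap.finrank_range_add_finrank_ker φ
    rw [LinearMap.range_eq_top.2 hφ, finrank_top, Module.finrank_self, hker, Module.finrank_prod,
      hd, hD2] at h1
    have h2 : Module.finrank k (Subalgebra.toSubmodule E) = Module.finrank k E := rfl
    omega
  have h3 := h E hrk
  let q : E →ₐ[k] A := (AlgHom.fst k A D).comp E.val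
  have hq : Function.Surjective q := by
    intro a
    refine ⟨⟨(a, algebraMap k D (aug a)), ?_⟩, rfl⟩
    change aug a = TrivSqZeroExt.fst (algebraMap k D (aug a))
    rw [TrivSqZeroExt.algebraMap_eq_inl]
    rfl
  exact (Pool.Agent.TH671.DU.rate_of_surjective q hq).trans h3

theorem rateLe_mono {d d' : ℕ} (hdd : d ≤ d') {x : ℝ} (h : RateLe k d' x) : RateLe k d x := by
  induction hdd with
  | refl => exact h
  | step _ ih => exact ih (rateLe_succ h)

theorem rateLe_pow {A : Type} [CommRing A] [Algebra k A] [Module.Finite k A] [IsLocalRing A]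
    {m : ℕ} {x : ℝ} (h : RateLe k (Module.finrank k A ^ m) x) : rate k A ^ m ≤ x := by
  obtain ⟨l, hl⟩ : ∃ l, Module.finrank k A = l + 1 :=
    ⟨Module.finrank k A - 1, (Nat.succ_pred_eq_of_pos Module.finrank_pos).symm⟩
  obtain ⟨c, hc⟩ := exists_ad (k := k) (A := A) l hl
  have hnt : Nontrivial (Pow k A m) := nontrivial_pow A m
  have hloc : IsLocalRing (Pow k A m) := by
    refine local_of_nil (k := k) _ (adjoin_pow hc.gen m) fun v => ?_
    refine IsNilpotent.map ⟨l + 1, ?_⟩ _
    have h1 := hc.2 fun _ => v.2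
    rw [Finset.prod_const, Finset.card_univ, Fintype.card_fin] at h1
    exact h1
  rw [← rate_pow']
  exact h _ (finrank_Pow m)

theorem rate_one {A : Type} [CommRing A] [Algebra k A] [Module.Finite k A] [Nontrivial A]
    (h : Module.finrank k A = 1) : rate k A ≤ 1 :=
  rate_le_of_growth one_pos ⟨1, zero_le_one, fun n => ⟨1, by simp, Growth.one_of_finrank h n⟩⟩

/-- a bound in infinitely many degrees implies the bound in all degrees -/
theorem inf_deg {x : ℝ} (hx : 0 ≤ x) (h : ∃ᶠ D : ℕ in atTop, RateLe k D ((D : ℝ) ^ x)) (d : ℕ) :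
    RateLe k d ((d : ℝ) ^ x) := by
  intro A _ _ _ _ hd
  have hpos : 0 < Module.finrank k A := Module.finrank_pos
  rcases Nat.lt_or_ge 1 d with hd2 | hd1
  swap
  · have h1 : Module.finrank k A = 1 := by omega
    have h2 : d = 1 := by omega
    rw [h2, Nat.cast_one, Real.one_rpow]
    exact rate_one h1
  by_contra hlt
  push Not at hlt
  set y : ℝ := (d : ℝ) ^ x with hy
  have hy1 : 1 ≤ y := Real.one_le_rpow (by exact_mod_cast hd2.le) hx
  have hq : 1 < rate k A / y := (one_lt_div (by linarith)).2 hlt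
  obtain ⟨M, hM⟩ := eventually_atTop.1
    ((tendsto_pow_atTop_atTop_of_one_lt hq).eventually_gt_atTop y)
  obtain ⟨D, hD1, hD2⟩ := (h.and_eventually (eventually_ge_atTop (d ^ M))).exists
  have hD0 : D ≠ 0 := by
    have : 0 < d ^ M := by positivity
    omega
  set m := Nat.log d D with hm
  have h1 : d ^ m ≤ D := Nat.pow_log_le_self d hD0
  have h2 : D < d ^ (m + 1) := Nat.lt_pow_succ_log_self hd2 D
  have h3 : M ≤ m := by
    have h4 : d ^ M < d ^ (m + 1) := lt_of_le_of_lt hD2 h2
    have := (Nat.pow_lt_pow_iff_right hd2).1 h4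
    omega
  have h4 : RateLe k (Module.finrank k A ^ m) ((D : ℝ) ^ x) := by
    rw [hd]
    exact rateLe_mono h1 hD1
  have h5 := rateLe_pow h4
  have h6 : (D : ℝ) ^ x ≤ y ^ (m + 1) := by
    calc (D : ℝ) ^ x ≤ ((d ^ (m + 1) : ℕ) : ℝ) ^ x :=
          Real.rpow_le_rpow (Nat.cast_nonneg _) (by exact_mod_cast h2.le) hx
      _ = y ^ (m + 1) := by
          rw [hy, Nat.cast_pow, ← Real.rpow_natCast, ← Real.rpow_natCast,
            ← Real.rpow_mul (Nat.cast_nonneg _), ← Real.rpow_mul (Nat.cast_nonneg _), mul_comm]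
  have h7 := hM m h3
  have h8 : y ^ (m + 1) < rate k A ^ m := by
    have h9 : 0 < y ^ m := by positivity
    calc y ^ (m + 1) = y * y ^ m := by ring
      _ < (rate k A / y) ^ m * y ^ m := mul_lt_mul_of_pos_right h7 h9
      _ = rate k A ^ m := by rw [← mul_pow, div_mul_cancel₀ _ (by linarith : y ≠ 0)]
  linarith

/-- from local schemes to all schemes -/
theorem all_of_local {x : ℝ} (hx : 1 ≤ x) (h : ∀ d : ℕ, RateLe k d ((d : ℝ) ^ x)) (n : ℕ) :
    ∀ (A : Type) [CommRing A] [Algebra k A] [Module.Finite k A] [Nontrivial A],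
      Module.finrank k A = n → rate k A ≤ (Module.finrank k A : ℝ) ^ x := by
  induction n using Nat.strong_induction_on with
  | _ n ih =>
    intro A _ _ _ _ hn
    by_cases hloc : IsLocalRing A
    · exact h _ A rfl
    have hart : IsArtinianRing A := IsArtinianRing.of_finite k A
    obtain ⟨e, he, hu, hu'⟩ := exists_idem hloc
    let f : A →ₐ[k] (A ⧸ Ideal.span {e}) × (A ⧸ Ideal.span {1 - e}) :=
      (Ideal.Quotient.mkₐ k (Ideal.span {e})).prod (Ideal.Quotient.mkₐ k (Ideal.span {1 - e}))
    have hf : Function.Bijective f := crt_bijective e he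
    let F := AlgEquiv.ofBijective f hf
    have hnt1 : Nontrivial (A ⧸ Ideal.span {e}) := by
      rw [Ideal.Quotient.nontrivial_iff, Ne, Ideal.span_singleton_eq_top]
      exact hu
    have hnt2 : Nontrivial (A ⧸ Ideal.span {1 - e}) := by
      rw [Ideal.Quotient.nontrivial_iff, Ne, Ideal.span_singleton_eq_top]
      exact hu'
    have hsum : Module.finrank k A = Module.finrank k (A ⧸ Ideal.span {e}) +
        Module.finrank k (A ⧸ Ideal.span {1 - e}) := by
      rw [F.toLinearEquiv.finrank_eq, Module.finrank_prod]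
    have hp1 : 0 < Module.finrank k (A ⧸ Ideal.span {e}) := Module.finrank_pos
    have hp2 : 0 < Module.finrank k (A ⧸ Ideal.span {1 - e}) := Module.finrank_pos
    have g1 := ih _ (by omega) (A ⧸ Ideal.span {e}) rfl
    have g2 := ih _ (by omega) (A ⧸ Ideal.span {1 - e}) rfl
    rw [Pool.Agent.TH671.DU.rate_congr F]
    refine (rate_prod_le _ _).trans ((add_le_add g1 g2).trans ?_)
    rw [hsum]
    push_cast
    have h4 := NNReal.add_rpow_le_rpow_add
      ((Module.finrank k (A ⧸ Ideal.span {e}) : ℕ) : NNReal)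
      ((Module.finrank k (A ⧸ Ideal.span {1 - e}) : ℕ) : NNReal)
      (p := x) hx
    exact_mod_cast h4

end

end Pool.Agent.K7.H10.CE
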