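import Pool.Agent.K7.H10.CE.Loc

/-!
# Bounds for the growth rates of all local schemes from those for forms over a subfield
-/

set_option autoImplicit false
set_option linter.unusedSectionVars false

namespace Pool.Agent.K7.H10.CE

open scoped TensorProduct Topology
open Pool.Agent.H826R3.SM Pool.Agent.TH671.DU Pool.Agent.N86.SQ Pool.Agent.K7.H10.GR
open MvPolynomial Filter

/-- For all nonzero dual forms `Φ` over `F` the growth rate over `K` of the apolar scheme of `Φ` is at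
most its degree to the power `x`. -/
def FormsLe (F K : Type) [Field F] [Field K] [Algebra F K] (x : ℝ) : Prop :=
  ∀ (σ : Type) [Finite σ] (s : ℕ) (Φ : MvPolynomial σ F →ₗ[F] F), IsDualForm s Φ → Φ ≠ 0 →
    rate K (K ⊗[F] ApolarAlg Φ) ≤ (Module.finrank F (ApolarAlg Φ) : ℝ) ^ x

/-- a bound with polynomial factors implies the bound without them -/
theorem root_bound (r y x : ℝ) (hy : 1 ≤ y) (m l : ℕ) (hm : 1 ≤ m)
    (h : ∀ n : ℕ, r ^ n ≤ ((2 * ((l + 1) * n + 1) ^ 2 * m : ℕ) : ℝ) ^ x * y ^ n) : r ≤ y := by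
  by_contra hlt
  push Not at hlt
  have hq : 1 < r / y := (one_lt_div (by linarith)).2 hlt
  set k0 : ℕ := ⌈x⌉₊ with hk0
  set C : ℝ := ((2 * (l + 2) ^ 2 * m : ℕ) : ℝ) ^ k0 with hC
  have hC1 : 0 < C := by
    rw [hC]
    positivity
  have h1 := tendsto_pow_const_div_const_pow_of_one_lt (2 * k0) hq
  obtain ⟨n, hn1, hn2⟩ := ((h1.eventually_lt_const (show 0 < 1 / C by positivity)).and
    (eventually_ge_atTop 1)).exists
  have hqn : 0 < (r / y) ^ n := by positivity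
  rw [div_lt_iff₀ hqn] at hn1
  have h2 : C * (n : ℝ) ^ (2 * k0) < (r / y) ^ n := by
    have := mul_lt_mul_of_pos_left hn1 hC1
    rwa [← mul_assoc, mul_one_div_cancel hC1.ne', one_mul] at this
  have h3 : ((2 * ((l + 1) * n + 1) ^ 2 * m : ℕ) : ℝ) ^ x ≤ C * (n : ℝ) ^ (2 * k0) := by
    have h4 : 1 ≤ 2 * ((l + 1) * n + 1) ^ 2 * m := by
      have : 0 < 2 * ((l + 1) * n + 1) ^ 2 * m := by positivity
      exact this
    have h5 : 2 * ((l + 1) * n + 1) ^ 2 * m ≤ 2 * (l + 2) ^ 2 * m * n ^ 2 := by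
      have h6 : (l + 1) * n + 1 ≤ (l + 2) * n := by nlinarith
      calc 2 * ((l + 1) * n + 1) ^ 2 * m ≤ 2 * ((l + 2) * n) ^ 2 * m := by gcongr
        _ = 2 * (l + 2) ^ 2 * m * n ^ 2 := by ring
    have h7 : ((2 * ((l + 1) * n + 1) ^ 2 * m : ℕ) : ℝ) ^ x ≤
        ((2 * ((l + 1) * n + 1) ^ 2 * m : ℕ) : ℝ) ^ (k0 : ℝ) :=
      Real.rpow_le_rpow_of_exponent_le (by exact_mod_cast h4) (Nat.le_ceil x)
    rw [Real.rpow_natCast] at h7
    refine h7.trans ?_
    calc ((2 * ((l + 1) * n + 1) ^ 2 * m : ℕ) : ℝ) ^ k0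
        ≤ ((2 * (l + 2) ^ 2 * m * n ^ 2 : ℕ) : ℝ) ^ k0 :=
          pow_le_pow_left₀ (Nat.cast_nonneg _) (by exact_mod_cast h5) _
      _ = C * (n : ℝ) ^ (2 * k0) := by
          rw [hC, pow_mul, ← mul_pow]
          push_cast
          ring
  have h4 := h n
  have hyn : 0 < y ^ n := by positivity
  have h5 : r ^ n < r ^ n := by
    calc r ^ n ≤ ((2 * ((l + 1) * n + 1) ^ 2 * m : ℕ) : ℝ) ^ x * y ^ n := h4
      _ ≤ C * (n : ℝ) ^ (2 * k0) * y ^ n := mul_le_mul_of_nonneg_right h3 hyn.le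
      _ < (r / y) ^ n * y ^ n := mul_lt_mul_of_pos_right h2 hyn
      _ = r ^ n := by rw [← mul_pow, div_mul_cancel₀ _ (by linarith : y ≠ 0)]
  exact lt_irrefl _ h5

theorem surj_map {F Ω A B C : Type} [Field F] [Field Ω] [Algebra F Ω] [CommRing A] [Algebra F A]
    [CommRing B] [Algebra F B] [CommRing C] [Algebra Ω C] (g : A →ₐ[F] B)
    (hg : Function.Surjective g) (f : Ω ⊗[F] B →ₐ[Ω] C) (hf : Function.Surjective f) :
    ∃ G : Ω ⊗[F] A →ₐ[Ω] C, Function.Surjective G := by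
  let G : Ω ⊗[F] A →ₐ[Ω] Ω ⊗[F] B := Algebra.TensorProduct.map (AlgHom.id Ω Ω) g
  have hG : Function.Surjective G := by
    intro z
    induction z with
    | zero => exact ⟨0, map_zero G⟩
    | add x y hx hy =>
      obtain ⟨x', rfl⟩ := hx
      obtain ⟨y', rfl⟩ := hy
      exact ⟨x' + y', map_add G x' y'⟩
    | tmul r y =>
      obtain ⟨y', rfl⟩ := hg y
      exact ⟨r ⊗ₜ y', by rw [Algebra.TensorProduct.map_tmul]; rfl⟩
  refine ⟨f.comp G, fun y => ?_⟩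
  obtain ⟨z, rfl⟩ := hf y
  obtain ⟨w, rfl⟩ := hG z
  exact ⟨w, rfl⟩

theorem forms_step (F Ω : Type) [Field F] [Field Ω] [IsAlgClosed Ω] [Algebra F Ω] (x : ℝ)
    (hx : 0 ≤ x) (H : FormsLe F Ω x) {A B : Type} [CommRing A] [Algebra Ω A] [Module.Finite Ω A]
    [Nontrivial A] (n e : ℕ) [CommRing B] [Algebra F B] [Module.Finite F B] [Nontrivial B]
    {σ : Type} [Finite σ] (a : σ → B) (ha1 : Algebra.adjoin F (Set.range a) = ⊤)
    (ha2 : Ideal.span (Set.range a) ^ (e + 1) = ⊥) (f : Ω ⊗[F] B →ₐ[Ω] Pow Ω A n)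
    (hf : Function.Surjective f) :
    rate Ω A ^ n ≤ ((2 * (e + 1) ^ 2 * Module.finrank F B : ℕ) : ℝ) ^ x := by
  obtain ⟨τ, _, Φ, hΦ, hΦ0, hfin, hrk, g, hg⟩ := exists_apolar e a ha1 ha2
  have := nontrivial_apolar hΦ0
  have h0 : Nontrivial (Ω ⊗[F] ApolarAlg Φ) := nontrivial_baseChange F Ω (ApolarAlg Φ)
  have hnp : Nontrivial (Pow Ω A n) := nontrivial_pow A n
  obtain ⟨G, hG⟩ := surj_map g hg f hf
  have h1 := Pool.Agent.TH671.DU.rate_of_surjective G hG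
  rw [rate_pow'] at h1
  refine h1.trans ((H τ _ Φ hΦ hΦ0).trans ?_)
  exact Real.rpow_le_rpow (Nat.cast_nonneg _) (by exact_mod_cast hrk) hx

theorem forms_alg (F Ω : Type) [Field F] [Field Ω] [IsAlgClosed Ω] [Algebra F Ω]
    [Algebra.IsAlgebraic F Ω] (x : ℝ) (hx : 0 ≤ x) (H : FormsLe F Ω x) (d : ℕ) :
    RateLe Ω d ((d : ℝ) ^ x) := by
  intro A _ _ _ _ hd
  obtain ⟨l, rfl⟩ : ∃ l, d = l + 1 := by
    have h1 : 0 < Module.finrank Ω A := Module.finrank_pos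
    exact ⟨d - 1, by omega⟩
  obtain ⟨c, hc⟩ := exists_ad (k := Ω) (A := A) l hd
  let S : Set Ω := Set.range fun z : Fin (l + 1) × Fin (l + 1) × Fin (l + 1) =>
    c.repr (c z.1 * c z.2.1) z.2.2
  let L : Subalgebra F Ω := Algebra.adjoin F S
  have hLfin : Module.Finite F L := by
    have h2 := fg_adjoin_of_finite (R := F) (Set.finite_range fun z : Fin (l + 1) × Fin (l + 1) ×
      Fin (l + 1) => c.repr (c z.1 * c z.2.1) z.2.2) (by
        rintro _ ⟨z, rfl⟩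
        exact (Algebra.IsAlgebraic.isAlgebraic _).isIntegral)
    exact Module.Finite.iff_fg.2 h2
  have hL : ∀ i i' j, c.repr (c i * c i') j ∈ L := fun i i' j =>
    Algebra.subset_adjoin ⟨(i, i', j), rfl⟩
  have hm : 1 ≤ Module.finrank F L := Module.finrank_pos
  refine root_bound _ _ x ?_ (Module.finrank F L) l hm fun n => ?_
  · refine Real.one_le_rpow ?_ hx
    exact_mod_cast Nat.succ_pos l
  obtain ⟨B, _, _, hBf, hBn, hB1, ⟨σ, _, a, ha1, ha2⟩, f, hf⟩ := exists_pow hc L hL n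
  refine (forms_step F Ω x hx H n _ a ha1 ha2 f hf).trans ?_
  have h2 : 2 * ((l + 1) * n + 1) ^ 2 * Module.finrank F B ≤
      2 * ((l + 1) * n + 1) ^ 2 * Module.finrank F L * (l + 1) ^ n := by
    rw [mul_assoc _ (Module.finrank F L)]
    exact Nat.mul_le_mul_left _ hB1
  calc ((2 * ((l + 1) * n + 1) ^ 2 * Module.finrank F B : ℕ) : ℝ) ^ x
      ≤ ((2 * ((l + 1) * n + 1) ^ 2 * Module.finrank F L * (l + 1) ^ n : ℕ) : ℝ) ^ x :=
        Real.rpow_le_rpow (Nat.cast_nonneg _) (by exact_mod_cast h2) hx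
    _ = ((2 * ((l + 1) * n + 1) ^ 2 * Module.finrank F L : ℕ) : ℝ) ^ x *
        (((l + 1 : ℕ) : ℝ) ^ x) ^ n := by
        rw [Nat.cast_mul, Real.mul_rpow (Nat.cast_nonneg _) (Nat.cast_nonneg _), Nat.cast_pow,
          ← Real.rpow_natCast, ← Real.rpow_natCast, ← Real.rpow_mul (Nat.cast_nonneg _),
          ← Real.rpow_mul (Nat.cast_nonneg _), mul_comm (n : ℝ) x]

theorem forms_rateLe (F K : Type) [Field F] [Field K] [IsAlgClosed K] [Algebra F K] (x : ℝ)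
    (hx : 0 ≤ x) (H : FormsLe F K x) (d : ℕ) : RateLe K d ((d : ℝ) ^ x) := by
  let Ω := AlgebraicClosure F
  let j : Ω →ₐ[F] K := IsAlgClosed.lift
  let _ : Algebra Ω K := j.toRingHom.toAlgebra
  have _ : IsScalarTower F Ω K := IsScalarTower.of_algebraMap_eq fun r => (j.commutes r).symm
  refine rateLe_transfer F Ω K d _ (forms_alg F Ω x hx ?_ d)
  intro σ _ s Φ hΦ hΦ0
  have := finite_apolar' hΦ
  have := nontrivial_apolar hΦ0
  rw [← rate_two (K := K) (local_apolar Ω hΦ hΦ0)]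
  exact H σ s Φ hΦ hΦ0

end Pool.Agent.K7.H10.CE
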