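import Pool.Agent.K7.H10.CE.Pw

/-!
# Local algebras over extension fields; apolar algebras of forms
-/

set_option autoImplicit false
set_option linter.unusedSectionVars false

namespace Pool.Agent.K7.H10.CE

open scoped TensorProduct
open Pool.Agent.H826R3.SM Pool.Agent.TH671.DU Pool.Agent.N86.SQ Pool.Agent.K7.H10.GR
open MvPolynomial

/-- an algebra all of whose elements are sums of scalars and nilpotent elements is local -/
theorem local_of_decomp {k E : Type} [Field k] [CommRing E] [Algebra k E] [Nontrivial E]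
    (key : ∀ x : E, ∃ r : k, IsNilpotent (x - algebraMap k E r)) : IsLocalRing E := by
  refine IsLocalRing.of_isUnit_or_isUnit_one_sub_self fun x => ?_
  obtain ⟨r, hr⟩ := key x
  by_cases h0 : r = 0
  · right
    rw [h0, map_zero, sub_zero] at hr
    exact hr.isUnit_one_sub
  · left
    have h1 : x = algebraMap k E r + (x - algebraMap k E r) := by ring
    rw [h1]
    exact hr.isUnit_add_left_of_commute ((Ne.isUnit h0).map (algebraMap k E)) (Commute.all _ _)

/-- an algebra generated by nilpotent elements is local -/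
theorem local_of_nil {k E : Type} [Field k] [CommRing E] [Algebra k E] [Nontrivial E] {σ : Type}
    (a : σ → E) (hgen : Algebra.adjoin k (Set.range a) = ⊤) (hnil : ∀ i, IsNilpotent (a i)) :
    IsLocalRing E := by
  refine local_of_decomp (k := k) fun x => ?_
  have hx : x ∈ Algebra.adjoin k (Set.range a) := by rw [hgen]; trivial
  induction hx using Algebra.adjoin_induction with
  | mem x hx =>
    obtain ⟨i, rfl⟩ := hx
    exact ⟨0, by rw [map_zero, sub_zero]; exact hnil i⟩
  | algebraMap r => exact ⟨r, by rw [sub_self]; exact IsNilpotent.zero⟩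
  | add x y _ _ hx hy =>
    obtain ⟨r, hr⟩ := hx
    obtain ⟨s, hs⟩ := hy
    refine ⟨r + s, ?_⟩
    have h1 : x + y - algebraMap k E (r + s) = (x - algebraMap k E r) + (y - algebraMap k E s) := by
      rw [map_add]
      ring
    rw [h1]
    exact (Commute.all _ _).isNilpotent_add hr hs
  | mul x y _ _ hx hy =>
    obtain ⟨r, hr⟩ := hx
    obtain ⟨s, hs⟩ := hy
    refine ⟨r * s, ?_⟩
    have h1 : x * y - algebraMap k E (r * s) =
        (x - algebraMap k E r) * y + algebraMap k E r * (y - algebraMap k E s) := by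
      rw [map_mul]
      ring
    rw [h1]
    exact (Commute.all _ _).isNilpotent_add ((Commute.all _ _).isNilpotent_mul_right hr)
      ((Commute.all _ _).isNilpotent_mul_left hs)

theorem local_ext {F Ω B : Type} [Field F] [Field Ω] [Algebra F Ω] [CommRing B] [Algebra F B]
    [Module.Finite F B] [Nontrivial B] {σ : Type} (a : σ → B)
    (hgen : Algebra.adjoin F (Set.range a) = ⊤) (hnil : ∀ i, IsNilpotent (a i)) :
    IsLocalRing (Ω ⊗[F] B) := by
  have := nontrivial_baseChange F Ω B
  let j : B →ₐ[F] Ω ⊗[F] B := Algebra.TensorProduct.includeRight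
  refine local_of_nil (k := Ω) (fun i => j (a i)) ?_ fun i => (hnil i).map j
  rw [eq_top_iff]
  rintro x -
  induction x with
  | zero => exact Subalgebra.zero_mem _
  | add x y hx hy => exact Subalgebra.add_mem _ hx hy
  | tmul r y =>
    have h1 : r ⊗ₜ[F] y = r • j y := by
      change _ = r • ((1 : Ω) ⊗ₜ[F] y)
      rw [TensorProduct.smul_tmul', smul_eq_mul, mul_one]
    rw [h1]
    refine Subalgebra.smul_mem _ ?_ r
    clear h1
    have hy : y ∈ Algebra.adjoin F (Set.range a) := by rw [hgen]; trivial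
    induction hy using Algebra.adjoin_induction with
    | mem y hy =>
      obtain ⟨i, rfl⟩ := hy
      exact Algebra.subset_adjoin ⟨i, rfl⟩
    | algebraMap s =>
      have h2 : j (algebraMap F B s) = algebraMap Ω (Ω ⊗[F] B) (algebraMap F Ω s) := by
        rw [AlgHom.commutes]
        rfl
      rw [h2]
      exact Subalgebra.algebraMap_mem _ _
    | add x y _ _ hx hy =>
      rw [map_add]
      exact Subalgebra.add_mem _ hx hy
    | mul x y _ _ hx hy =>
      rw [map_mul]
      exact Subalgebra.mul_mem _ hx hy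

section apolar

variable {F : Type} [Field F] {σ : Type} {s : ℕ} {Φ : MvPolynomial σ F →ₗ[F] F}

theorem mem_ann_of_degree (hΦ : IsDualForm s Φ) (P : MvPolynomial σ F) (n : ℕ) (hn : s < n)
    (hP : P.IsHomogeneous n) : P ∈ annOf Φ := by
  intro G
  rw [← sum_homogeneousComponent G, Finset.mul_sum, map_sum]
  refine Finset.sum_eq_zero fun j _ => ?_
  exact hΦ (n + j) (by omega) _ (hP.mul (homogeneousComponent_isHomogeneous j G))

theorem gen_apolar : Algebra.adjoin F (Set.range fun i : σ =>
    (Ideal.Quotient.mkₐ F (annOf Φ) (X i) : ApolarAlg Φ)) = ⊤ := by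
  have h1 : (Set.range fun i : σ => (Ideal.Quotient.mkₐ F (annOf Φ) (X i) : ApolarAlg Φ)) =
      (Ideal.Quotient.mkₐ F (annOf Φ)) '' (Set.range (X : σ → MvPolynomial σ F)) := by
    rw [← Set.range_comp]
    rfl
  rw [h1, ← AlgHom.map_adjoin, MvPolynomial.adjoin_range_X, Algebra.map_top]
  exact (AlgHom.range_eq_top _).2 (Ideal.Quotient.mkₐ_surjective _ _)

theorem nil_apolar (hΦ : IsDualForm s Φ) (i : σ) :
    IsNilpotent (Ideal.Quotient.mkₐ F (annOf Φ) (X i) : ApolarAlg Φ) := by
  refine ⟨s + 1, ?_⟩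
  rw [← map_pow]
  change Ideal.Quotient.mk (annOf Φ) (X i ^ (s + 1)) = 0
  rw [Ideal.Quotient.eq_zero_iff_mem]
  refine mem_ann_of_degree hΦ _ (s + 1) (Nat.lt_succ_self s) ?_
  have := (isHomogeneous_X F i).pow (s + 1)
  rwa [one_mul] at this

theorem nontrivial_apolar (hΦ0 : Φ ≠ 0) : Nontrivial (ApolarAlg Φ) := by
  rw [Ideal.Quotient.nontrivial_iff]
  intro h
  apply hΦ0
  refine LinearMap.ext fun P => ?_
  have h1 : (1 : MvPolynomial σ F) ∈ annOf Φ := by rw [h]; trivial
  have h2 := h1 P
  rwa [one_mul] at h2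

theorem finite_apolar' [Finite σ] (hΦ : IsDualForm s Φ) : Module.Finite F (ApolarAlg Φ) := by
  have h1 : Algebra.adjoin F (Set.range fun i : σ =>
    (Ideal.Quotient.mkₐ F (annOf Φ) (X i) : ApolarAlg Φ)) = ⊤ := gen_apolar
  have h2 := fg_adjoin_of_finite (R := F) (Set.finite_range fun i : σ =>
    (Ideal.Quotient.mkₐ F (annOf Φ) (X i) : ApolarAlg Φ)) (by
      rintro _ ⟨i, rfl⟩
      obtain ⟨n, hn⟩ := nil_apolar (F := F) hΦ i
      refine IsIntegral.of_pow (Nat.succ_pos n) ?_
      rw [pow_succ, hn, zero_mul]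
      exact isIntegral_zero)
  rw [h1] at h2
  exact ⟨h2⟩

theorem local_apolar [Finite σ] (Ω : Type) [Field Ω] [Algebra F Ω] (hΦ : IsDualForm s Φ)
    (hΦ0 : Φ ≠ 0) : IsLocalRing (Ω ⊗[F] ApolarAlg Φ) := by
  have := finite_apolar' hΦ
  have := nontrivial_apolar hΦ0
  exact local_ext (fun i : σ => (Ideal.Quotient.mkₐ F (annOf Φ) (X i) : ApolarAlg Φ)) gen_apolar
    (nil_apolar hΦ)

end apolar

/-- growth rates over two extension fields -/
theorem rate_two {F Ω K B : Type} [Field F] [Field Ω] [IsAlgClosed Ω] [Field K] [IsAlgClosed K]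
    [Algebra F Ω] [Algebra F K] [Algebra Ω K] [IsScalarTower F Ω K] [CommRing B] [Algebra F B]
    [Module.Finite F B] [Nontrivial B] (h : IsLocalRing (Ω ⊗[F] B)) :
    rate K (K ⊗[F] B) = rate Ω (Ω ⊗[F] B) := by
  have := nontrivial_baseChange F K B
  have := nontrivial_baseChange Ω K (Ω ⊗[F] B)
  rw [← rate_field Ω K (Ω ⊗[F] B)]
  exact Pool.Agent.N86.SQ.rate_congr (Algebra.TensorProduct.cancelBaseChange F Ω K K B).symm

end Pool.Agent.K7.H10.CE
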