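import Pool.Agent.K7.H10.CE.Sub

/-!
# Small algebras over subfields which cover the powers of an algebra
-/

set_option autoImplicit false
set_option linter.unusedSectionVars false

namespace Pool.Agent.K7.H10.CE

open scoped TensorProduct
open Pool.Agent.H826R3.SM Pool.Agent.TH671.DU Pool.Agent.N86.SQ Pool.Agent.K7.H10.GR

theorem exists_small {F Ω C : Type} [Field F] [Field Ω] [Algebra F Ω] [CommRing C] [Algebra Ω C]
    {J : Type} [Fintype J] (b : Module.Basis J Ω C) (j0 : J) (h0 : b j0 = 1) {e : ℕ}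
    (hn : mI b j0 ^ (e + 1) = ⊥) (L : Subalgebra F Ω) [Module.Finite F L]
    (hL : ∀ i i' j, b.repr (b i * b i') j ∈ L) :
    ∃ (B : Type) (_ : CommRing B) (_ : Algebra F B), Module.Finite F B ∧ Nontrivial B ∧
      Module.finrank F B ≤ Module.finrank F L * Fintype.card J ∧
      (∃ (σ : Type) (_ : Finite σ) (a : σ → B), Algebra.adjoin F (Set.range a) = ⊤ ∧
        Ideal.span (Set.range a) ^ (e + 1) = ⊥) ∧
      ∃ f : Ω ⊗[F] B →ₐ[Ω] C, Function.Surjective f := by
  let _ : Algebra F C := ((algebraMap Ω C).comp (algebraMap F Ω)).toAlgebra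
  have _ : IsScalarTower F Ω C := IsScalarTower.of_algebraMap_eq fun _ => rfl
  refine ⟨BB b j0 h0 hn L hL, inferInstance, inferInstance, (finite_BB b j0 h0 hn L hL).1, ?_,
    (finite_BB b j0 h0 hn L hL).2, gens_BB b j0 h0 hn L hL, ?_⟩
  · refine ⟨⟨1, 0, fun h => b.ne_zero j0 ?_⟩⟩
    rw [h0]
    exact congrArg Subtype.val h
  · let f : Ω ⊗[F] BB b j0 h0 hn L hL →ₐ[Ω] C :=
      Algebra.TensorProduct.lift (Algebra.ofId Ω C) (BB b j0 h0 hn L hL).val
        fun _ _ => Commute.all _ _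
    refine ⟨f, fun x => ?_⟩
    rw [← b.sum_repr x]
    refine ⟨∑ i, b.repr x i • ((1 : Ω) ⊗ₜ[F] (⟨b i, mem_BB b j0 h0 hn L hL i⟩ :
      BB b j0 h0 hn L hL)), ?_⟩
    rw [map_sum]
    refine Finset.sum_congr rfl fun i _ => ?_
    rw [map_smul]
    congr 1
    change f _ = _
    rw [Algebra.TensorProduct.lift_tmul, map_one, one_mul]
    rfl

theorem exists_pow {F Ω A : Type} [Field F] [Field Ω] [Algebra F Ω] [CommRing A] [Algebra Ω A]
    {l : ℕ} {c : Module.Basis (Fin (l + 1)) Ω A} (hc : Ad c) (L : Subalgebra F Ω)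
    [Module.Finite F L] (hL : ∀ i i' j, c.repr (c i * c i') j ∈ L) (n : ℕ) :
    ∃ (B : Type) (_ : CommRing B) (_ : Algebra F B), Module.Finite F B ∧ Nontrivial B ∧
      Module.finrank F B ≤ Module.finrank F L * (l + 1) ^ n ∧
      (∃ (σ : Type) (_ : Finite σ) (a : σ → B), Algebra.adjoin F (Set.range a) = ⊤ ∧
        Ideal.span (Set.range a) ^ ((l + 1) * n + 1) = ⊥) ∧
      ∃ f : Ω ⊗[F] B →ₐ[Ω] Pow Ω A n, Function.Surjective f := by
  classical
  let b := Basis.piTensorProduct (fun _ : Fin n => c)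
  have hb : ∀ J : Fin n → Fin (l + 1), b J = PiTensorProduct.tprod Ω fun i => c (J i) := fun J =>
    Basis.piTensorProduct_apply _ _
  have h0 : b (fun _ => 0) = 1 := by
    rw [hb]
    simp only [hc.1]
    rfl
  have hn : mI b (fun _ => 0) ^ ((l + 1) * n + 1) = ⊥ := by
    rw [eq_bot_iff]
    refine (Ideal.pow_right_mono ?_ _).trans
      (nil_pow (k := Ω) (fun v : Fin l => c v.succ) l hc.nil n).le
    unfold mI
    rw [Ideal.span_le]
    rintro _ ⟨⟨J, hJ⟩, rfl⟩
    obtain ⟨i, hi⟩ : ∃ i, J i ≠ 0 := by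
      by_contra h
      push Not at h
      exact hJ (funext h)
    obtain ⟨v, hv⟩ := Fin.exists_succ_eq.2 hi
    change b J ∈ _
    rw [hb, tprod_eq_prod_single, ← Finset.mul_prod_erase _ _ (Finset.mem_univ i)]
    refine Ideal.mul_mem_right _ _ (Ideal.subset_span ⟨(i, v), ?_⟩)
    change sg Ω A i (c v.succ) = _
    rw [hv]
  have hLb : ∀ i i' j, b.repr (b i * b i') j ∈ L := by
    intro J J' j
    rw [hb, hb, PiTensorProduct.tprod_mul_tprod, Basis.piTensorProduct_repr_tprod_apply]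
    exact Subalgebra.prod_mem _ fun i _ => hL _ _ _
  obtain ⟨B, i1, i2, h1, h2, h3, h4, h5⟩ := exists_small b _ h0 hn L hLb
  refine ⟨B, i1, i2, h1, h2, ?_, h4, h5⟩
  rwa [Fintype.card_fun, Fintype.card_fin, Fintype.card_fin] at h3

end Pool.Agent.K7.H10.CE
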