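import Pool.Agent.K7.H10.GR.Fin

/-!
# Descent of an algebra with nilpotent basis elements to a subfield, up to a finite extension
-/

set_option autoImplicit false
set_option linter.unusedSectionVars false

namespace Pool.Agent.K7.H10.CE

open scoped TensorProduct

section

variable {F Ω C : Type} [Field F] [Field Ω] [Algebra F Ω] [CommRing C] [Algebra Ω C] [Algebra F C]
  [IsScalarTower F Ω C] {J : Type} [Fintype J] (b : Module.Basis J Ω C) (j0 : J)

/-- the ideal generated by the basis elements other than the unit -/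
def mI : Ideal C := Ideal.span (Set.range fun i : {i : J // i ≠ j0} => b i)

variable {b j0} (h0 : b j0 = 1) {e : ℕ} (hn : mI b j0 ^ (e + 1) = ⊥)

include h0

theorem repr_split (x : C) : ∃ s ∈ mI b j0, x = b.repr x j0 • (1 : C) + s := by
  classical
  refine ⟨∑ i ∈ Finset.univ.erase j0, b.repr x i • b i, ?_, ?_⟩
  · refine Ideal.sum_mem _ fun i hi => ?_
    rw [Algebra.smul_def]
    exact Ideal.mul_mem_left _ _ (Ideal.subset_span ⟨⟨i, Finset.ne_of_mem_erase hi⟩, rfl⟩)
  · conv_lhs => rw [← b.sum_repr x, ← Finset.add_sum_erase _ _ (Finset.mem_univ j0), h0]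

include hn

theorem repr_mI {x : C} (hx : x ∈ mI b j0) : b.repr x j0 = 0 := by
  obtain ⟨s, hs, h1⟩ := repr_split h0 x
  by_contra hne
  have h2 : b.repr x j0 • (1 : C) ∈ mI b j0 := by
    have h3 : b.repr x j0 • (1 : C) = x - s := by
      rw [eq_sub_iff_add_eq]
      exact h1.symm
    rw [h3]
    exact Ideal.sub_mem _ hx hs
  have h3 : (1 : C) ∈ mI b j0 := by
    have h4 := Ideal.mul_mem_left _ (algebraMap Ω C (b.repr x j0)⁻¹) h2
    rw [Algebra.smul_def, mul_one, ← map_mul, inv_mul_cancel₀ hne, map_one] at h4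
    exact h4
  have h4 := Ideal.pow_mem_pow h3 (e + 1)
  rw [hn, one_pow, Ideal.mem_bot] at h4
  exact b.ne_zero j0 (by rw [h0, h4])

theorem repr_one : b.repr 1 j0 = 1 := by
  classical
  rw [← h0, b.repr_self, Finsupp.single_eq_same]

theorem repr_mul0 (x y : C) : b.repr (x * y) j0 = b.repr x j0 * b.repr y j0 := by
  obtain ⟨s, hs, h1⟩ := repr_split h0 x
  obtain ⟨t, ht, h2⟩ := repr_split h0 y
  have h3 : x * y = (b.repr x j0 * b.repr y j0) • (1 : C) +
      (b.repr x j0 • t + b.repr y j0 • s + s * t) := by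
    conv_lhs => rw [h1, h2]
    simp only [Algebra.smul_def, map_mul]
    ring
  have h4 : b.repr x j0 • t + b.repr y j0 • s + s * t ∈ mI b j0 := by
    refine Ideal.add_mem _ (Ideal.add_mem _ ?_ ?_) (Ideal.mul_mem_left _ _ ht)
    · rw [Algebra.smul_def]
      exact Ideal.mul_mem_left _ _ ht
    · rw [Algebra.smul_def]
      exact Ideal.mul_mem_left _ _ hs
  conv_lhs => rw [h3]
  rw [map_add, Finsupp.add_apply, repr_mI h0 hn h4, add_zero, map_smul, Finsupp.smul_apply,
    repr_one h0 hn, smul_eq_mul, mul_one]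

end

section

variable {F Ω C : Type} [Field F] [Field Ω] [Algebra F Ω] [CommRing C] [Algebra Ω C] [Algebra F C]
  [IsScalarTower F Ω C] {J : Type} [Fintype J] (b : Module.Basis J Ω C) (j0 : J)
  (h0 : b j0 = 1) {e : ℕ} (hn : mI b j0 ^ (e + 1) = ⊥) (L : Subalgebra F Ω)
  (hL : ∀ i i' j, b.repr (b i * b i') j ∈ L)

theorem repr_mulJ (x y : C) (j : J) : b.repr (x * y) j =
    ∑ i, ∑ i', b.repr x i * b.repr y i' * b.repr (b i * b i') j := by
  conv_lhs => rw [← b.sum_repr x, ← b.sum_repr y, Finset.sum_mul_sum, map_sum,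
    Finsupp.finsetSum_apply]
  refine Finset.sum_congr rfl fun i _ => ?_
  rw [map_sum, Finsupp.finsetSum_apply]
  refine Finset.sum_congr rfl fun i' _ => ?_
  rw [smul_mul_smul_comm, map_smul, Finsupp.smul_apply, smul_eq_mul]

/-- the elements with coordinates in `L`, and residue class in `F` -/
def BB : Subalgebra F C where
  carrier := {x | (∀ j, b.repr x j ∈ L) ∧ b.repr x j0 ∈ (⊥ : Subalgebra F Ω)}
  mul_mem' := by
    rintro x y ⟨hx, hx0⟩ ⟨hy, hy0⟩
    refine ⟨fun j => ?_, ?_⟩
    · rw [repr_mulJ]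
      exact Subalgebra.sum_mem _ fun i _ => Subalgebra.sum_mem _ fun i' _ =>
        Subalgebra.mul_mem _ (Subalgebra.mul_mem _ (hx i) (hy i')) (hL _ _ _)
    · rw [repr_mul0 h0 hn]
      exact Subalgebra.mul_mem _ hx0 hy0
  add_mem' := by
    rintro x y ⟨hx, hx0⟩ ⟨hy, hy0⟩
    refine ⟨fun j => ?_, ?_⟩
    · rw [map_add, Finsupp.add_apply]
      exact Subalgebra.add_mem _ (hx j) (hy j)
    · rw [map_add, Finsupp.add_apply]
      exact Subalgebra.add_mem _ hx0 hy0
  algebraMap_mem' := by
    intro r
    have h1 : algebraMap F C r = algebraMap F Ω r • b j0 := by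
      rw [h0, Algebra.smul_def, mul_one, ← IsScalarTower.algebraMap_apply]
    have h2 : ∀ j, b.repr (algebraMap F C r) j ∈ (⊥ : Subalgebra F Ω) := by
      classical
      intro j
      rw [h1, map_smul, Finsupp.smul_apply, b.repr_self, smul_eq_mul, Finsupp.single_apply]
      split_ifs
      · rw [mul_one]
        exact Subalgebra.algebraMap_mem _ _
      · rw [mul_zero]
        exact Subalgebra.zero_mem _
    exact ⟨fun j => bot_le (a := L) (h2 j), h2 j0⟩

/-- the coordinates -/
noncomputable def coB : BB b j0 h0 hn L hL →ₗ[F] (J → L) where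
  toFun x j := ⟨b.repr x.1 j, x.2.1 j⟩
  map_add' x y := by
    funext j
    apply Subtype.ext
    change b.repr (x.1 + y.1) j = _
    rw [map_add]
    rfl
  map_smul' r x := by
    funext j
    apply Subtype.ext
    change b.repr (r • x.1) j = r • b.repr x.1 j
    have h1 : r • x.1 = algebraMap F Ω r • x.1 := by
      rw [algebraMap_smul]
    rw [h1, map_smul, Finsupp.smul_apply, algebraMap_smul]

theorem coB_inj : Function.Injective (coB b j0 h0 hn L hL) := by
  intro x y hxy
  apply Subtype.ext
  apply b.repr.injective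
  refine Finsupp.ext fun j => ?_
  exact congrArg Subtype.val (congrFun hxy j)

theorem finite_BB [Module.Finite F L] : Module.Finite F (BB b j0 h0 hn L hL) ∧
    Module.finrank F (BB b j0 h0 hn L hL) ≤ Module.finrank F L * Fintype.card J := by
  have h1 : Module.Finite F (BB b j0 h0 hn L hL) :=
    Module.Finite.of_injective _ (coB_inj b j0 h0 hn L hL)
  refine ⟨h1, ?_⟩
  have h2 := LinearMap.finrank_le_finrank_of_injective (coB_inj b j0 h0 hn L hL)
  rw [Module.finrank_pi_fintype, Finset.sum_const, Finset.card_univ, smul_eq_mul] at h2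
  rw [mul_comm]
  exact h2

theorem mem_BB (i : J) : b i ∈ BB b j0 h0 hn L hL := by
  classical
  have h2 : ∀ j, b.repr (b i) j ∈ (⊥ : Subalgebra F Ω) := by
    intro j
    rw [b.repr_self, Finsupp.single_apply]
    split_ifs
    · exact Subalgebra.one_mem _
    · exact Subalgebra.zero_mem _
  exact ⟨fun j => bot_le (a := L) (h2 j), h2 j0⟩

theorem gens_BB [Module.Finite F L] : ∃ (σ : Type) (_ : Finite σ)
    (a : σ → BB b j0 h0 hn L hL), Algebra.adjoin F (Set.range a) = ⊤ ∧
      Ideal.span (Set.range a) ^ (e + 1) = ⊥ := by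
  have hfin := (finite_BB b j0 h0 hn L hL).1
  let W : Submodule F (BB b j0 h0 hn L hL) :=
    { carrier := {x | b.repr x.1 j0 = 0}
      add_mem' := by
        intro x y hx hy
        change b.repr (x.1 + y.1) j0 = 0
        rw [map_add, Finsupp.add_apply, hx, hy, add_zero]
      zero_mem' := by
        change b.repr (0 : C) j0 = 0
        rw [map_zero]
        rfl
      smul_mem' := by
        intro r x hx
        change b.repr (r • x.1) j0 = 0
        have h1 : r • x.1 = algebraMap F Ω r • x.1 := by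
          rw [algebraMap_smul]
        rw [h1, map_smul, Finsupp.smul_apply, hx, smul_zero] }
  let w := Module.finBasis F W
  refine ⟨Fin (Module.finrank F W), inferInstance, fun i => (w i : BB b j0 h0 hn L hL), ?_, ?_⟩
  · rw [eq_top_iff]
    rintro x -
    obtain ⟨r, hr⟩ := Algebra.mem_bot.1 x.2.2
    have hr' : algebraMap F Ω r = b.repr x.1 j0 := hr
    have h1 : x - algebraMap F _ r ∈ W := by
      change b.repr (x.1 - algebraMap F C r) j0 = 0
      have h2 : algebraMap F C r = algebraMap F Ω r • (1 : C) := by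
        rw [Algebra.smul_def, mul_one, ← IsScalarTower.algebraMap_apply]
      rw [map_sub, Finsupp.sub_apply, h2, map_smul, Finsupp.smul_apply, repr_one h0 hn, smul_eq_mul,
        mul_one, hr', sub_self]
    have h3 : x = (x - algebraMap F _ r) + algebraMap F _ r := by ring
    rw [h3]
    refine Subalgebra.add_mem _ ?_ (Subalgebra.algebraMap_mem _ _)
    have h4 : x - algebraMap F _ r = ((∑ i, w.repr (⟨_, h1⟩ : W) i • w i : W) : BB b j0 h0 hn L hL) := by
      rw [w.sum_repr]
    rw [h4, Submodule.coe_sum]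
    refine Subalgebra.sum_mem _ fun i _ => ?_
    rw [Submodule.coe_smul]
    exact Subalgebra.smul_mem _ (Algebra.subset_adjoin (Set.mem_range_self i)) _
  · have h1 : (Ideal.span (Set.range fun i => (w i : BB b j0 h0 hn L hL))).map
        (BB b j0 h0 hn L hL).val.toRingHom ≤ mI b j0 := by
      rw [Ideal.map_span, Ideal.span_le]
      rintro _ ⟨_, ⟨i, rfl⟩, rfl⟩
      obtain ⟨s, hs, h2⟩ := repr_split h0 ((w i : BB b j0 h0 hn L hL) : C)
      have h3 : b.repr ((w i : BB b j0 h0 hn L hL) : C) j0 = 0 := (w i).2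
      rw [h3, zero_smul, zero_add] at h2
      change ((w i : BB b j0 h0 hn L hL) : C) ∈ mI b j0
      rw [h2]
      exact hs
    rw [eq_bot_iff]
    intro x hx
    have h2 := Ideal.mem_map_of_mem (BB b j0 h0 hn L hL).val.toRingHom hx
    rw [Ideal.map_pow] at h2
    have h3 := Ideal.pow_right_mono h1 (e + 1) h2
    rw [hn] at h3
    exact Subtype.ext h3

end

end Pool.Agent.K7.H10.CE
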