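import Pool.Agent.K7.H10.CE.Crit

/-!
# The critical exponent and forms over subfields
-/

set_option autoImplicit false
set_option linter.unusedSectionVars false

namespace Pool.Agent.K7.H10.CE

open scoped TensorProduct Topology
open Pool.Agent.H826R3.SM Pool.Agent.TH671.DU Pool.Agent.N86.SQ Pool.Agent.K7.H10.GR
open MvPolynomial Filter

/-- The supremum of the exponents of the apolar schemes, over `K`, of the dual forms over `F` (those
with an apolar scheme of degree at least `2`). -/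
noncomputable def critForms (F K : Type) [Field F] [Field K] [Algebra F K] : EReal :=
  sSup {y | ∃ (σ : Type) (_ : Finite σ) (s : ℕ) (Φ : MvPolynomial σ F →ₗ[F] F), IsDualForm s Φ ∧
    2 ≤ Module.finrank F (ApolarAlg Φ) ∧ y = (expo K (K ⊗[F] ApolarAlg Φ) : EReal)}

section

variable {F K : Type} [Field F] [Field K] [IsAlgClosed K] [Algebra F K]

theorem apolar_facts {σ : Type} [Finite σ] {s : ℕ} {Φ : MvPolynomial σ F →ₗ[F] F}
    (hΦ : IsDualForm s Φ) (hΦ0 : Φ ≠ 0) : Module.Finite K (K ⊗[F] ApolarAlg Φ) ∧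
      Nontrivial (K ⊗[F] ApolarAlg Φ) ∧
      Module.finrank K (K ⊗[F] ApolarAlg Φ) = Module.finrank F (ApolarAlg Φ) := by
  have h1 := finite_apolar' hΦ
  have h2 := nontrivial_apolar hΦ0
  exact ⟨inferInstance, nontrivial_baseChange F K _, Module.finrank_baseChange⟩

theorem zero_apolar {σ : Type} : Subsingleton (ApolarAlg (0 : MvPolynomial σ F →ₗ[F] F)) := by
  rw [Ideal.Quotient.subsingleton_iff, Ideal.eq_top_iff_one]
  intro G
  rfl

theorem ne_zero_of_finrank {σ : Type} {Φ : MvPolynomial σ F →ₗ[F] F}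
    (h : 1 ≤ Module.finrank F (ApolarAlg Φ)) : Φ ≠ 0 := by
  rintro rfl
  have := zero_apolar (F := F) (σ := σ)
  rw [Module.finrank_zero_of_subsingleton] at h
  omega

theorem formsLe_iff {x : ℝ} : critForms F K ≤ x → FormsLe F K x := by
  intro h σ _ s Φ hΦ hΦ0
  obtain ⟨h1, h2, h3⟩ := apolar_facts (K := K) hΦ hΦ0
  rw [← h3]
  rcases Nat.lt_or_ge 1 (Module.finrank K (K ⊗[F] ApolarAlg Φ)) with hd2 | hd1
  · have h4 : (expo K (K ⊗[F] ApolarAlg Φ) : EReal) ≤ x :=
      (le_sSup ⟨σ, inferInstance, s, Φ, hΦ, by omega, rfl⟩ :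
        (expo K (K ⊗[F] ApolarAlg Φ) : EReal) ≤ critForms F K).trans h
    exact (expo_le_iff hd2 x).1 (by exact_mod_cast h4)
  · have hpos : 0 < Module.finrank K (K ⊗[F] ApolarAlg Φ) := Module.finrank_pos
    have h4 : Module.finrank K (K ⊗[F] ApolarAlg Φ) = 1 := by omega
    rw [h4, Nat.cast_one, Real.one_rpow]
    exact rate_one h4

theorem one_le_critForms : 1 ≤ critForms F K := by
  obtain ⟨A, _, _, c, hc⟩ := exists_local F 1
  have hf : Module.Finite F A := Module.Finite.of_basis c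
  have hnt : Nontrivial A := ⟨⟨c 0, 0, c.ne_zero 0⟩⟩
  obtain ⟨τ, hτ, Φ, hΦ, hΦ0, hfin, hrk, g, hg⟩ := exists_apolar 1 _ hc.gen hc.nil
  have h2 : 2 ≤ Module.finrank F (ApolarAlg Φ) := by
    have h3 := LinearMap.finrank_le_finrank_of_surjective (f := g.toLinearMap) hg
    rw [Module.finrank_eq_card_basis c, Fintype.card_fin] at h3
    exact h3
  obtain ⟨h3, h4, h5⟩ := apolar_facts (K := K) hΦ hΦ0
  have h6 : (expo K (K ⊗[F] ApolarAlg Φ) : EReal) ≤ critForms F K :=
    le_sSup ⟨τ, hτ, _, Φ, hΦ, h2, rfl⟩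
  refine le_trans ?_ h6
  exact_mod_cast one_le_expo (k := K) (A := K ⊗[F] ApolarAlg Φ) (by rw [h5]; exact h2)

/-- **The critical exponent is determined by the forms over a subfield.** -/
theorem crit_eq_forms : crit K = critForms F K := by
  refine le_antisymm (le_of_real one_le_critForms fun x hx h => ?_) ?_
  · rw [crit_le_iff hx]
    exact forms_rateLe F K x (by linarith) (formsLe_iff h)
  · refine sSup_le ?_
    rintro y ⟨σ, hσ, s, Φ, hΦ, h2, rfl⟩
    have hΦ0 : Φ ≠ 0 := ne_zero_of_finrank (by omega)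
    obtain ⟨h3, h4, h5⟩ := apolar_facts (K := K) hΦ hΦ0
    exact le_sSup ⟨K ⊗[F] ApolarAlg Φ, inferInstance, inferInstance, h3, by rw [h5]; exact h2, rfl⟩

/-- below the critical exponent the ratio tends to infinity for some form over the subfield -/
theorem below_forms {ε : ℝ} (hε : 0 ≤ ε) (h : ((1 + ε : ℝ) : EReal) < crit K) :
    ∃ (σ : Type) (_ : Finite σ) (s : ℕ) (Φ : MvPolynomial σ F →ₗ[F] F), IsDualForm s Φ ∧ Φ ≠ 0 ∧
      Tendsto (ratio K (K ⊗[F] ApolarAlg Φ) ε) atTop atTop := by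
  rw [crit_eq_forms (F := F)] at h
  obtain ⟨y, ⟨σ, hσ, s, Φ, hΦ, h2, rfl⟩, hy⟩ := lt_sSup_iff.1 h
  have hΦ0 : Φ ≠ 0 := ne_zero_of_finrank (by omega)
  obtain ⟨h3, h4, h5⟩ := apolar_facts (K := K) hΦ hΦ0
  refine ⟨σ, hσ, s, Φ, hΦ, hΦ0, lim_top hε ?_⟩
  have h6 : 1 + ε < expo K (K ⊗[F] ApolarAlg Φ) := by exact_mod_cast hy
  by_contra hle
  push Not at hle
  have := (expo_le_iff (k := K) (A := K ⊗[F] ApolarAlg Φ) (by rw [h5]; exact h2) (1 + ε)).2 hle
  linarith

/-- **Q1 is a statement on forms over a subfield.** -/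
theorem qAll_iff_forms : QAll K ↔ ∀ (σ : Type) [Finite σ] (s : ℕ)
    (Φ : MvPolynomial σ F →ₗ[F] F), IsDualForm s Φ → Φ ≠ 0 → QOne K (K ⊗[F] ApolarAlg Φ) := by
  constructor
  · intro h σ _ s Φ hΦ hΦ0
    obtain ⟨h3, h4, h5⟩ := apolar_facts (K := K) hΦ hΦ0
    exact h _
  · intro h
    rw [qAll_iff]
    have h1 : FormsLe F K 1 := by
      intro σ _ s Φ hΦ hΦ0
      obtain ⟨h3, h4, h5⟩ := apolar_facts (K := K) hΦ hΦ0
      rw [Real.rpow_one, ← h5]
      exact ((qOne_iff_rate _).1 (h σ s Φ hΦ hΦ0)).le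
    intro d
    have h2 := forms_rateLe F K 1 zero_le_one h1 d
    rwa [Real.rpow_one] at h2

end

end Pool.Agent.K7.H10.CE
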